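import Mathlib
import Pool.Agent.helper67.DL.SpecG

/-! # Project dl (MP_4caea3_gt): HA, a metric invariant under `DD` and the duality is diagonal. -/

namespace Pool.Agent.DL

open Matrix Complex
open scoped ComplexOrder Manifold ContDiff

theorem HA : HA_stmt := by
  intro H hH hD hJ
  have hdet : IsUnit (Hᵀ).det := by
    rw [det_transpose]
    exact (isUnit_iff_isUnit_det H).1 hH.isUnit
  -- `H JJ Hᵀ = JJ`
  have hJJ : JJ * JJ = 1 := by
    ext i j
    fin_cases i <;> fin_cases j <;> simp [JJ, Matrix.mul_apply, Fin.sum_univ_three]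
  have key : H * JJ * Hᵀ = JJ := by
    calc H * JJ * Hᵀ = (JJ * (Hᵀ)⁻¹ * JJ) * JJ * Hᵀ := by rw [← hJ]
      _ = JJ * ((Hᵀ)⁻¹ * (JJ * JJ) * Hᵀ) := by simp only [Matrix.mul_assoc]
      _ = JJ := by rw [hJJ, Matrix.mul_one, nonsing_inv_mul _ hdet, Matrix.mul_one]
  -- entries from `DD`
  have e01 : H 0 1 = 0 := by
    have h := congrFun (congrFun hD 0) 1
    simp [DD, Matrix.mul_apply, Fin.sum_univ_three, diagonal] at h
    exact self_eq_neg.1 h
  have e10 : H 1 0 = 0 := by
    have h := congrFun (congrFun hD 1) 0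
    simp [DD, Matrix.mul_apply, Fin.sum_univ_three, diagonal] at h
    exact self_eq_neg.1 h
  have e12 : H 1 2 = 0 := by
    have h := congrFun (congrFun hD 1) 2
    simp [DD, Matrix.mul_apply, Fin.sum_univ_three, diagonal] at h
    exact self_eq_neg.1 h
  have e21 : H 2 1 = 0 := by
    have h := congrFun (congrFun hD 2) 1
    simp [DD, Matrix.mul_apply, Fin.sum_univ_three, diagonal] at h
    exact self_eq_neg.1 h
  have p0 := hH.diag_pos (i := 0)
  have p1 := hH.diag_pos (i := 1)
  have p2 := hH.diag_pos (i := 2)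
  have hher : ∀ i j, star (H j i) = H i j := fun i j => hH.isHermitian.apply i j
  have k00 := congrFun (congrFun key 0) 0
  have k11 := congrFun (congrFun key 1) 1
  have k02 := congrFun (congrFun key 0) 2
  simp [JJ, Matrix.mul_apply, Fin.sum_univ_three, e01, e10, e12, e21] at k00 k11 k02
  have e02 : H 0 2 = 0 := by
    have h1 : H 0 0 ≠ 0 := p0.ne'
    have h2 : H 0 0 * H 0 2 = 0 := by linear_combination k00 / 2
    rcases mul_eq_zero.1 h2 with h3 | h3
    · exact absurd h3 h1
    · exact h3
  have e20 : H 2 0 = 0 := by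
    rw [← hher 2 0, e02, star_zero]
  rw [Complex.pos_iff] at p0 p1
  have r0 : H 0 0 = ((H 0 0).re : ℂ) := by
    apply Complex.ext
    · simp
    · simp [p0.2.symm]
  have r1 : H 1 1 = ((H 1 1).re : ℂ) := by
    apply Complex.ext
    · simp
    · simp [p1.2.symm]
  have e11 : H 1 1 = 1 := by
    rw [r1] at k11 ⊢
    have h1 : (H 1 1).re * (H 1 1).re = 1 := by exact_mod_cast k11
    have h2 : (H 1 1).re = 1 := by nlinarith [p1.1]
    rw [h2]
    simp
  have e22 : H 2 2 = (((1 / (H 0 0).re : ℝ)) : ℂ) := by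
    rw [e02] at k02
    have h1 : H 0 0 * H 2 2 = 1 := by linear_combination k02
    rw [r0] at h1
    push_cast
    have h3 : ((H 0 0).re : ℂ) ≠ 0 := by exact_mod_cast p0.1.ne'
    rw [eq_div_iff h3, mul_comm]
    exact h1
  refine ⟨(H 0 0).re, p0.1, ?_⟩
  ext i j
  fin_cases i <;> fin_cases j
  · simpa [diagonal] using r0
  · simpa [diagonal] using e01
  · simpa [diagonal] using e02
  · simpa [diagonal] using e10
  · simpa [diagonal] using e11
  · simpa [diagonal] using e12
  · simpa [diagonal] using e20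
  · simpa [diagonal] using e21
  · simpa [diagonal] using e22

end Pool.Agent.DL
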