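import Mathlib
import Pool.Agent.helper67.DL.SpecL

/-! # Project dl (MP_4caea3_gt): LA, linearity of `lap` and `lap (log N)`. -/

namespace Pool.Agent.DL

open Matrix Complex Filter Topology
open scoped ComplexOrder

theorem LA_line (u : ℂ → ℝ) (z d : ℂ) (hu : ContDiffAt ℝ 2 u z) :
    ContDiffAt ℝ 2 (fun t : ℝ => u (z + t * d)) 0 := by
  have h1 : ContDiff ℝ 2 (fun t : ℝ => z + (t : ℂ) * d) :=
    contDiff_const.add (Complex.ofRealCLM.contDiff.mul contDiff_const)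
  have h2 : z + (((0 : ℝ) : ℝ) : ℂ) * d = z := by simp
  have h3 : ContDiffAt ℝ 2 u ((fun t : ℝ => z + (t : ℂ) * d) 0) := by
    simpa using hu
  exact h3.comp (0 : ℝ) h1.contDiffAt

theorem LA_lin (f g : ℝ → ℝ) (a b : ℝ) (hf : ContDiffAt ℝ 2 f 0) (hg : ContDiffAt ℝ 2 g 0) :
    iteratedDeriv 2 (fun t => a * f t + b * g t) 0 =
      a * iteratedDeriv 2 f 0 + b * iteratedDeriv 2 g 0 := by
  have h1 : ContDiffAt ℝ 2 (fun t => a * f t) 0 := contDiffAt_const.mul hf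
  have h2 : ContDiffAt ℝ 2 (fun t => b * g t) 0 := contDiffAt_const.mul hg
  have h3 := iteratedDeriv_fun_add (n := 2) (𝕜 := ℝ) (x := (0 : ℝ)) h1 h2
  rw [h3]
  congr 1
  · exact iteratedDeriv_const_mul_field a f
  · exact iteratedDeriv_const_mul_field b g

theorem LA_log (n : ℝ → ℝ) (hn : ContDiffAt ℝ 2 n 0) (h0 : 0 < n 0) :
    iteratedDeriv 2 (fun t => Real.log (n t)) 0 =
      iteratedDeriv 2 n 0 / n 0 - deriv n 0 ^ 2 / n 0 ^ 2 := by
  rw [iteratedDeriv_succ, iteratedDeriv_one, iteratedDeriv_succ, iteratedDeriv_one]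
  have h1 : ∀ᶠ t in 𝓝 (0 : ℝ), 0 < n t := hn.continuousAt.eventually (lt_mem_nhds h0)
  have h2 : ∀ᶠ t in 𝓝 (0 : ℝ), ContDiffAt ℝ 2 n t := hn.eventually (by simp)
  have h3 : deriv (fun t => Real.log (n t)) =ᶠ[𝓝 0] fun t => deriv n t / n t := by
    filter_upwards [h1, h2] with t ht1 ht2
    exact deriv.log (ht2.differentiableAt (by simp)) ht1.ne'
  rw [h3.deriv_eq]
  have h4 : DifferentiableAt ℝ n 0 := hn.differentiableAt (by simp)
  have h5 : DifferentiableAt ℝ (deriv n) 0 := by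
    have h6 : ContDiffAt ℝ 1 (fun x => fderiv ℝ n x 1) 0 :=
      (hn.fderiv_right (m := 1) (by norm_num)).clm_apply contDiffAt_const
    exact h6.differentiableAt (by simp)
  rw [deriv_fun_div h5 h4 h0.ne']
  field_simp

theorem LA_deriv (N : ℂ → ℝ) (z d : ℂ) (hN : DifferentiableAt ℝ N z) :
    deriv (fun t : ℝ => N (z + t * d)) 0 = fderiv ℝ N z d := by
  have h1 : HasDerivAt (fun t : ℝ => z + (t : ℂ) * d) d 0 := by
    have h := ((Complex.ofRealCLM.hasDerivAt (x := (0 : ℝ))).mul_const d).const_add z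
    simpa using h
  have h3 : HasFDerivAt N (fderiv ℝ N z) ((fun t : ℝ => z + (t : ℂ) * d) 0) := by
    simpa using hN.hasFDerivAt
  exact (h3.comp_hasDerivAt (0 : ℝ) h1).deriv

theorem LA_fderiv (N : ℂ → ℝ) (z d : ℂ) (hN : DifferentiableAt ℝ N z) :
    fderiv ℝ (fun w => ((N w : ℝ) : ℂ)) z d = ((fderiv ℝ N z d : ℝ) : ℂ) := by
  have h1 : HasFDerivAt (fun w => ((N w : ℝ) : ℂ)) (Complex.ofRealCLM.comp (fderiv ℝ N z)) z :=
    Complex.ofRealCLM.hasFDerivAt.comp z hN.hasFDerivAt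
  rw [h1.fderiv]
  rfl

theorem LA_normsq (x y : ℝ) : ‖((x : ℂ) - I * (y : ℂ)) / 2‖ ^ 2 = (x ^ 2 + y ^ 2) / 4 := by
  rw [← Complex.normSq_eq_norm_sq]
  have : ((x : ℂ) - I * (y : ℂ)) / 2 = ⟨x / 2, -(y / 2)⟩ := by
    apply Complex.ext <;> simp
    ring
  rw [this, Complex.normSq_mk]
  ring

theorem LA : LA_stmt := by
  constructor
  · intro u v z a b hu hv
    unfold lap
    have h1 := LA_lin _ _ a b (LA_line u z 1 hu) (LA_line v z 1 hv)
    have h2 := LA_lin _ _ a b (LA_line u z I hu) (LA_line v z I hv)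
    simp only [mul_one] at h1
    rw [h1, h2]
    ring
  · intro N z hN h0
    unfold lap
    have h1 := LA_log _ (LA_line N z 1 hN) (by simpa using h0)
    have h2 := LA_log _ (LA_line N z I hN) (by simpa using h0)
    have hd := hN.differentiableAt (n := 2) (by simp)
    rw [LA_deriv N z 1 hd] at h1
    rw [LA_deriv N z I hd] at h2
    simp only [mul_one, Complex.ofReal_zero, zero_mul, add_zero] at h1 h2
    rw [h1, h2]
    have h3 : ‖dz (fun w => ((N w : ℝ) : ℂ)) z‖ ^ 2 =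
        (fderiv ℝ N z 1 ^ 2 + fderiv ℝ N z I ^ 2) / 4 := by
      unfold dz
      rw [LA_fderiv N z 1 hd, LA_fderiv N z I hd, LA_normsq]
    rw [h3]
    ring

end Pool.Agent.DL
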