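import Mathlib
import Pool.Agent.helper67.DL.SpecL

/-! # Project dl (MP_4caea3_gt): MX, second derivative test. -/

namespace Pool.Agent.DL

open Matrix Complex Filter Topology
open scoped ComplexOrder

theorem MX_one (g : ℝ → ℝ) (hc : ContinuousAt g 0) (h : IsLocalMax g 0) :
    iteratedDeriv 2 g 0 ≤ 0 := by
  rw [iteratedDeriv_succ, iteratedDeriv_one]
  by_contra hcon
  push Not at hcon
  have h1 : IsLocalMin g 0 := isLocalMin_of_deriv_deriv_pos hcon h.deriv_eq_zero hc
  have h2 : g =ᶠ[𝓝 0] fun _ => g 0 := by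
    filter_upwards [h, h1] with t ht1 ht2
    exact le_antisymm ht1 ht2
  have h3 : deriv g =ᶠ[𝓝 0] fun _ => 0 := by
    have h4 := h2.deriv
    simpa using h4
  have h5 := h3.deriv_eq
  rw [deriv_const] at h5
  linarith

theorem MX : MX_stmt := by
  intro u z hu hmax
  have key : ∀ d : ℂ, iteratedDeriv 2 (fun t : ℝ => u (z + t * d)) 0 ≤ 0 := by
    intro d
    have h1 : Continuous (fun t : ℝ => z + t * d) := by fun_prop
    have h2 : Tendsto (fun t : ℝ => z + t * d) (𝓝 0) (𝓝 z) := by
      have := h1.tendsto 0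
      simpa using this
    apply MX_one
    · have h4 : Tendsto (fun t : ℝ => u (z + t * d)) (𝓝 0) (𝓝 (u z)) :=
        hu.continuousAt.tendsto.comp h2
      simpa [ContinuousAt] using h4
    · have h5 : ∀ᶠ t : ℝ in 𝓝 0, u (z + t * d) ≤ u z := h2.eventually hmax
      filter_upwards [h5] with t ht
      simpa using ht
  have h1 := key 1
  have h2 := key I
  simp only [mul_one] at h1
  unfold lap
  linarith

end Pool.Agent.DL
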